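import Mathlib
import Pool.Agent.Helper854_CM.Asm

/-!
# The coefficient inequality for all `n`, for large `p`, for the whole class

For every real `p ≥ 10 ^ 60` and every `n`, the inequality of the problem holds for every
nonvanishing circumferentially mean `p`-valent function.

Proof. For `8 n ≤ p` this is the induction of `LargeP`. For `8 n > p` write `f = f(0) exp (p h)`
and use Cauchy's integral on the saddle circle `n (1 - r²) = 4 p r` of the extremal function
`exp (p k)`, `k = 2 log ((1 + z) / (1 - z))`. Let `D = k(r) - max_{|z| = r} Re h ≥ 0`.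

* If `D > 10 ^ (-52)`, a regularity type estimate of the integral means (`caseA`) wins by a factor
  `p ^ (3/2) exp (- (p - 1/2) D)`.
* If `D ≤ 10 ^ (-52)`, the stability form of the sharp linear inequalities, moved to the maximum
  point by a Moebius map, controls all Taylor coefficients of `h` there (`SDa_of`); a second peak is
  excluded by Dufresnoy's inequality applied to two disjoint pieces (`CC.excl`, `far`), and a
  perturbation of the saddle point integral, with the loss `exp (p δ / 80) ≤ exp (p D)`, gives the
  sharp inequality (`CB`, `caseB`).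
-/

set_option autoImplicit false

open MeasureTheory Metric Set

namespace Pool.Agent.Results.MP_4a1962_an.AllNLargeP

open Pool.Agent.Helper854_CM

theorem result :
    ∀ p : ℝ, 10 ^ 60 ≤ p →
    ∀ f : ℂ → ℂ, DifferentiableOn ℂ f (Metric.ball (0 : ℂ) 1) →
      (∀ z ∈ Metric.ball (0 : ℂ) 1, f z ≠ 0) →
      (∀ R : ℝ, 0 < R →
        ∫⁻ φ in Set.Ioc (0 : ℝ) (2 * Real.pi),
          ENat.toENNReal
            (Set.encard {z : ℂ | z ∈ Metric.ball (0 : ℂ) 1 ∧
              f z = (R : ℂ) * Complex.exp ((φ : ℂ) * Complex.I)})
          ≤ ENNReal.ofReal (2 * Real.pi * p)) →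
      ∀ n : ℕ, ‖iteratedDeriv n f 0‖ ≤
        ‖f 0‖ * ‖iteratedDeriv n (fun z : ℂ => ((1 + z) / (1 - z)) ^ ((2 * p : ℝ) : ℂ)) 0‖ := by
  intro p hp f hf hne hN n
  exact all_n hp hf hne hN n

end Pool.Agent.Results.MP_4a1962_an.AllNLargeP
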