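import Mathlib
import Pool.Agent.Helper854_CM.LP

/-!
# The coefficient inequality for `p ≥ 8 n`, for the whole class

For every real `p ≥ 1` and every `n` with `8 n ≤ p`, the inequality of the problem holds for every
nonvanishing circumferentially mean `p`-valent function.

Proof. Write `f = f(0) exp (p h)`. The area condition gives for `h` (and all its rotations) the
sharp linear inequalities `Re (h_1 + λ h_k) ≤ 4 + (2 λ / k) (1 - (-1)^k)`, `|λ| k² ≤ 1`
(`Helper854_CM.DR.mlin`), proved with a discrete Riesz rearrangement inequality and a level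
inequality. They give stability: `4 - |h_1|` controls the distance of all coefficients from those
of `2 log ((1 + z) / (1 - z))`. Together with a Bloch bound this is enough for an induction on the
ratios of consecutive coefficients of `f` (`Helper854_CM.FD.small`, `Helper854_CM.FD.large`).
-/

set_option autoImplicit false

open MeasureTheory Metric Set

namespace Pool.Agent.Results.MP_4a1962_an.LargeP

open Pool.Agent.Helper854_CM

theorem result :
    ∀ p : ℝ, 1 ≤ p →
    ∀ f : ℂ → ℂ, DifferentiableOn ℂ f (Metric.ball (0 : ℂ) 1) →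
      (∀ z ∈ Metric.ball (0 : ℂ) 1, f z ≠ 0) →
      (∀ R : ℝ, 0 < R →
        ∫⁻ φ in Set.Ioc (0 : ℝ) (2 * Real.pi),
          ENat.toENNReal
            (Set.encard {z : ℂ | z ∈ Metric.ball (0 : ℂ) 1 ∧
              f z = (R : ℂ) * Complex.exp ((φ : ℂ) * Complex.I)})
          ≤ ENNReal.ofReal (2 * Real.pi * p)) →
      ∀ n : ℕ, 8 * (n : ℝ) ≤ p → ‖iteratedDeriv n f 0‖ ≤
        ‖f 0‖ * ‖iteratedDeriv n (fun z : ℂ => ((1 + z) / (1 - z)) ^ ((2 * p : ℝ) : ℂ)) 0‖ := by
  intro p hp f hf hne hN n hn
  exact large_p (by linarith) hf hne hN hn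

end Pool.Agent.Results.MP_4a1962_an.LargeP
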