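import Mathlib
import Pool.Agent.Helper854_CM.Cm
import Pool.Agent.Helper854_CM.Crit2

/-!
# Nonvanishing circumferentially mean `p`-valent functions with a non-injective inner factor

For `p ≥ 1`, the coefficient inequality of the problem holds, for all coefficients, for every
circumferentially mean `p`-valent nonvanishing function of the form `f = F ∘ B`, where `F` is
analytic in the disc and `B` is an analytic self-map of the disc which takes almost every value of
the disc at least twice (for example `f (z) = F (z ^ k)`, `k ≥ 2`, or `B` a finite Blaschke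
product of degree at least two).

Proof. The area inequality for `f` passes to `F` with `p` replaced by `p / 2`
(`Helper854_CM.area_half`). A sharp inequality of Dufresnoy type (`Helper854_CM.dufresnoy`), proved
from an isoperimetric inequality on the sphere, gives `(1 - |z|²) |F'(z)| ≤ 2 p |F(z)|`, hence the
same for `f` by the lemma of Schwarz and Pick. Growth and Cauchy estimates then give all
coefficients (`Helper854_CM.crit`).
-/

set_option autoImplicit false

open MeasureTheory Metric Set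

namespace Pool.Agent.Results.MP_4a1962_an.NonInjectiveFactor

open Pool.Agent.Helper854_CM

theorem result :
    ∀ p : ℝ, 1 ≤ p →
    ∀ F B : ℂ → ℂ, DifferentiableOn ℂ F (Metric.ball (0 : ℂ) 1) →
      DifferentiableOn ℂ B (Metric.ball (0 : ℂ) 1) →
      (∀ z ∈ Metric.ball (0 : ℂ) 1, F z ≠ 0) →
      (∀ z ∈ Metric.ball (0 : ℂ) 1, B z ∈ Metric.ball (0 : ℂ) 1) →
      (∀ᵐ ζ : ℂ, ζ ∈ Metric.ball (0 : ℂ) 1 →
        ∃ z₁ ∈ Metric.ball (0 : ℂ) 1, ∃ z₂ ∈ Metric.ball (0 : ℂ) 1,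
          z₁ ≠ z₂ ∧ B z₁ = ζ ∧ B z₂ = ζ) →
      (∀ R : ℝ, 0 < R →
        ∫⁻ φ in Set.Ioc (0 : ℝ) (2 * Real.pi),
          ENat.toENNReal
            (Set.encard {z : ℂ | z ∈ Metric.ball (0 : ℂ) 1 ∧
              F (B z) = (R : ℂ) * Complex.exp ((φ : ℂ) * Complex.I)})
          ≤ ENNReal.ofReal (2 * Real.pi * p)) →
      ∀ n : ℕ, ‖iteratedDeriv n (fun z => F (B z)) 0‖ ≤
        ‖F (B 0)‖ *
          ‖iteratedDeriv n (fun z : ℂ => ((1 + z) / (1 - z)) ^ ((2 * p : ℝ) : ℂ)) 0‖ := by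
  intro p hp F B hF hB hne hBm hae hN n
  have hd : DifferentiableOn ℂ (fun z => F (B z)) (ball 0 1) := hF.comp hB hBm
  have hE : volume {ζ : ℂ | ¬ (ζ ∈ Metric.ball (0 : ℂ) 1 →
      ∃ z₁ ∈ Metric.ball (0 : ℂ) 1, ∃ z₂ ∈ Metric.ball (0 : ℂ) 1,
        z₁ ≠ z₂ ∧ B z₁ = ζ ∧ B z₂ = ζ)} = 0 := hae
  refine crit hp hd (fun z hz => hne _ (hBm z hz)) (fun z hz => ?_) n
  refine bloch_f (E := {ζ : ℂ | ¬ (ζ ∈ Metric.ball (0 : ℂ) 1 →
      ∃ z₁ ∈ Metric.ball (0 : ℂ) 1, ∃ z₂ ∈ Metric.ball (0 : ℂ) 1,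
        z₁ ≠ z₂ ∧ B z₁ = ζ ∧ B z₂ = ζ)}) (by linarith) hF hne hB hBm hE ?_ hN hz
  intro ζ hζ hE'
  by_contra hcon
  exact hE' fun h => hcon (h hζ)

end Pool.Agent.Results.MP_4a1962_an.NonInjectiveFactor
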